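import Pool.Agent.Helper97.Hilb8.Wrap
import Pool.Agent.Helper97.Hilb8.Charts
import Pool.Agent.Helper97.Hilb8.K.A.OK
import Pool.Agent.Helper97.Hilb8.K.B.OK
import Pool.Agent.Helper97.Hilb8.L.A.OK
import Pool.Agent.Helper97.Hilb8.L.B.OK
import Pool.Agent.Helper97.Hilb8.L.Final2
import Pool.Agent.Helper28.Hilb8.D.Main
import Pool.Agent.Helper90.Hilb8C.Ker2
import Pool.Agent.Helper90.Hilb8C.Asm

/-!
# The Hilbert scheme of 8 points of affine 4-space is reduced (all characteristics)
-/

open AlgebraicGeometry CategoryTheory

universe u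

namespace Pool.Agent.Results.MP_230b73_ag.HilbEightA4Reduced

open Pool.Agent.Helper97.Hilb8

/-- Let `k` be an infinite field of any characteristic (for example an algebraically closed one)
and let the `k`-scheme `H` represent the Hilbert functor of 8 points of affine 4-space over `k`.
Then `H` is reduced. -/
theorem result (k : Type u) [Field k] [Infinite k] (H : Scheme.{u})
    (s : H ⟶ Spec (CommRingCat.of k)) (h : HilbRep k H s) : AlgebraicGeometry.IsReduced H := by
  by_cases h2 : (2 : k) = 0
  · have hchar : CharP k 2 := CharTwo.of_one_ne_zero_of_two_eq_zero one_ne_zero h2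
    exact isReduced_of_versalLift k H s h fun O _ _ _ A _ _ bA x hx =>
      Pool.Agent.Helper90.Hilb8C.versalLift_of_charts2 k h2
        (K.isReduced_of_ok2 chartA K.A.data K.A.data2 K.A.ok2 k h2)
        (K.isReduced_of_ok2 chartB K.B.data K.B.data2 K.B.ok2 k h2)
        (Pool.Agent.Helper90.Hilb8C.locRed_chartC k)
        (Pool.Agent.Helper28.Hilb8.D.locRed_chartD k h2) O A bA x hx
  · exact isReduced_of_versalLift k H s h fun O _ _ _ A _ _ bA x hx =>
      versalLift_of_charts k h2
        (K.isReduced_of_ok chartA K.A.data K.A.ok k h2)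
        (K.isReduced_of_ok chartB K.B.data K.B.ok k h2) O A bA x hx

end Pool.Agent.Results.MP_230b73_ag.HilbEightA4Reduced
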